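import Pool.Agent.H465Z.CutDefs
import Pool.Agent.H465Z.CutD

namespace Pool.Agent.Results.MP_e86704_lc.AllRealizable

open Cardinal Pool.Agent.H465Z.Cut

universe u

/-- For a bounded set `X` of ordinals indexing regular alephs, the realizable sets are exactly
all the subsets of `X²`. -/
theorem result (X : Set Ordinal.{u}) (hX : BddAbove X) (hreg : ∀ x ∈ X, (ℵ_ x).IsRegular)
    (C : Set (Ordinal.{u} × Ordinal.{u})) : Realizable X C ↔ C ⊆ X ×ˢ X :=
  ⟨fun ⟨_, _, _, _, _, h⟩ => h ▸ Set.inter_subset_right, realizable X hX hreg C⟩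

end Pool.Agent.Results.MP_e86704_lc.AllRealizable
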